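import Pool.Agent.LeoD.FieldStmts

/-! Squad LEOD, module LCG: the condition `SqM` is local. -/

set_option autoImplicit false

open NumberField IsDedekindDomain Module

namespace Pool.Agent.LeoD.H75

variable {O : Type} [CommRing O] [IsDedekindDomain O]

omit [IsDedekindDomain O] in
/-- Membership in a nonzero ideal is local. -/
lemma mem_of_local {A : Ideal O} (hA : A ≠ ⊥) {x : O}
    (h : ∀ p : HeightOneSpectrum O, ∃ s : O, s ∉ p.asIdeal ∧ s * x ∈ A) : x ∈ A := by
  by_contra hx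
  set B : Ideal O := Submodule.comap (LinearMap.mulRight O x) A with hB
  have hmem : ∀ s : O, s ∈ B ↔ s * x ∈ A := fun s => by
    rw [hB, Submodule.mem_comap, LinearMap.mulRight_apply]
  have hAB : A ≤ B := fun s hs => (hmem s).2 (A.mul_mem_right x hs)
  have hne : B ≠ ⊤ := by
    intro hT
    apply hx
    have h1 : (1 : O) ∈ B := by rw [hT]; trivial
    have h2 := (hmem 1).1 h1
    rwa [one_mul] at h2
  obtain ⟨M, hM, hBM⟩ := Ideal.exists_le_maximal B hne
  have hM0 : M ≠ ⊥ := by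
    intro h0
    apply hA
    rw [eq_bot_iff, ← h0]
    exact hAB.trans hBM
  obtain ⟨s, hs1, hs2⟩ := h ⟨M, hM.isPrime, hM0⟩
  exact hs1 (hBM ((hmem s).2 hs2))

/-- A nonzero ideal is a power of a prime times an ideal that is prime to it. -/
lemma split_at (p : HeightOneSpectrum O) {A : Ideal O} (hA : A ≠ ⊥) :
    ∃ (e : ℕ) (B : Ideal O) (s : O), A = p.asIdeal ^ e * B ∧ s ∈ B ∧ s ∉ p.asIdeal := by
  obtain ⟨e, B, hB, hAB⟩ := WfDvdMonoid.max_power_factor hA p.irreducible
  rw [Ideal.dvd_iff_le, SetLike.le_def] at hB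
  push Not at hB
  obtain ⟨s, hs1, hs2⟩ := hB
  exact ⟨e, B, s, hAB, hs1, hs2⟩

/-- An element outside `p` is invertible modulo a power of `p`. -/
lemma inv_mod (p : HeightOneSpectrum O) (e : ℕ) {t : O} (ht : t ∉ p.asIdeal) :
    ∃ t' : O, t * t' - 1 ∈ p.asIdeal ^ e := by
  have h1 : Ideal.span {t} ⊔ p.asIdeal ^ e = ⊤ := by
    apply Ideal.sup_pow_eq_top
    have hmax : p.asIdeal.IsMaximal := p.isMaximal
    rw [sup_comm]
    by_contra hne
    have h2 := hmax.eq_of_le hne le_sup_left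
    apply ht
    rw [h2]
    exact Ideal.mem_sup_right (Ideal.mem_span_singleton_self t)
  have h2 : (1 : O) ∈ Ideal.span {t} ⊔ p.asIdeal ^ e := by rw [h1]; trivial
  obtain ⟨a, ha, b, hb, hab⟩ := Submodule.mem_sup.1 h2
  obtain ⟨c, rfl⟩ := Ideal.mem_span_singleton'.1 ha
  refine ⟨c, ?_⟩
  have h3 : t * c - 1 = -b := by linear_combination hab
  rw [h3]
  exact neg_mem hb

/-- LCG -/
theorem lcg : LcgStmt := by
  intro k _ _ I m hI hloc
  choose t ht hsq using hloc
  choose x hxI hx using hsq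
  have h2 : (2 : 𝓞 k) ≠ 0 := two_ne_zero
  set A : Ideal (𝓞 k) := Ideal.span {(2 : 𝓞 k)} * I with hAdef
  have hA : A ≠ ⊥ := by
    intro h
    rcases Ideal.mul_eq_bot.1 h with h | h
    · exact h2 (Ideal.span_singleton_eq_bot.1 h)
    · exact hI h
  have hAI : A ≤ I := Ideal.mul_le_right
  choose e B s hAB hsB hsp using fun p : HeightOneSpectrum (𝓞 k) => split_at p hA
  choose t' ht' using fun p : HeightOneSpectrum (𝓞 k) => inv_mod p (e p) (ht p)
  -- the finite set
  have hfin : {v : HeightOneSpectrum (𝓞 k) | v.asIdeal ∣ A}.Finite := Ideal.finite_factors hA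
  obtain ⟨q, hq⟩ := IsDedekindDomain.exists_forall_sub_mem_ideal (s := hfin.toFinset)
    (fun p : HeightOneSpectrum (𝓞 k) => p.asIdeal) e (fun p _ => p.prime)
    (fun p _ p' _ hpp' h => hpp' (HeightOneSpectrum.ext h)) (fun p => t' p.1 * x p.1)
  have hqA : ∀ p : HeightOneSpectrum (𝓞 k), p.asIdeal ∣ A →
      s p * (q - t' p * x p) ∈ A := by
    intro p hp
    have h3 := hq p (hfin.mem_toFinset.2 hp)
    rw [hAB p, mul_comm (s p)]
    exact Ideal.mul_mem_mul h3 (hsB p)
  have hout : ∀ p : HeightOneSpectrum (𝓞 k), ¬ p.asIdeal ∣ A →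
      (2 : 𝓞 k) ∉ p.asIdeal ∧ ∃ r ∈ I, r ∉ p.asIdeal := by
    intro p hp
    rw [Ideal.dvd_iff_le] at hp
    constructor
    · intro h
      apply hp
      refine le_trans Ideal.mul_le_left ?_
      rw [Ideal.span_singleton_le_iff_mem]
      exact h
    · by_contra hcon
      push Not at hcon
      exact hp (hAI.trans hcon)
  have hqI : q ∈ I := by
    apply mem_of_local hI
    intro p
    by_cases hp : p.asIdeal ∣ A
    · refine ⟨s p, hsp p, ?_⟩
      have h3 := hAI (hqA p hp)
      have h4 : s p * q = s p * (q - t' p * x p) + s p * t' p * x p := by ring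
      rw [h4]
      exact I.add_mem h3 (I.mul_mem_left _ (hxI p))
    · obtain ⟨_, r, hr, hrp⟩ := hout p hp
      exact ⟨r, hrp, I.mul_mem_right q hr⟩
  refine ⟨q, hqI, ?_⟩
  have h4I : Ideal.span {(4 : 𝓞 k)} * I ^ 2 = A ^ 2 := by
    rw [hAdef, mul_pow, Ideal.span_singleton_pow]
    norm_num
  have hA2 : A ^ 2 ≠ ⊥ := pow_ne_zero 2 hA
  rw [h4I]
  apply mem_of_local hA2
  intro p
  have hx' := hx p
  rw [h4I] at hx'
  by_cases hp : p.asIdeal ∣ A
  · refine ⟨(s p * t p) ^ 2, ?_, ?_⟩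
    · intro h
      rcases p.isPrime.mem_or_mem (p.isPrime.mem_of_pow_mem 2 h) with h | h
      · exact hsp p h
      · exact ht p h
    · -- u = t q - x
      have hu : s p * (t p * q - x p) ∈ A := by
        have h5 : s p * (t p * q - x p) = t p * (s p * (q - t' p * x p)) +
            s p * (t p * t' p - 1) * x p := by ring
        rw [h5]
        refine A.add_mem (A.mul_mem_left _ (hqA p hp)) (A.mul_mem_right _ ?_)
        rw [hAB p, mul_comm (s p)]
        exact Ideal.mul_mem_mul (ht' p) (hsB p)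
      obtain ⟨u, hu'⟩ : ∃ u, u = s p * (t p * q - x p) := ⟨_, rfl⟩
      rw [← hu'] at hu
      have h6 : (s p * t p) ^ 2 * (q ^ 2 + m) =
          u ^ 2 + u * (2 * (s p * x p)) + s p ^ 2 * (x p ^ 2 + t p ^ 2 * m) := by
        rw [hu']; ring
      rw [h6, pow_two A]
      refine Ideal.add_mem _ (Ideal.add_mem _ ?_ ?_) ?_
      · rw [pow_two]
        exact Ideal.mul_mem_mul hu hu
      · refine Ideal.mul_mem_mul hu ?_
        rw [hAdef]
        exact Ideal.mul_mem_mul (Ideal.mem_span_singleton_self 2) (I.mul_mem_left _ (hxI p))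
      · rw [← pow_two A]
        exact Ideal.mul_mem_left _ _ hx'
  · obtain ⟨h2p, _⟩ := hout p hp
    refine ⟨(2 * t p) ^ 2, ?_, ?_⟩
    · intro h
      rcases p.isPrime.mem_or_mem (p.isPrime.mem_of_pow_mem 2 h) with h | h
      · exact h2p h
      · exact ht p h
    · have h6 : (2 * t p) ^ 2 * (q ^ 2 + m) =
          (2 * (t p * q)) * (2 * (t p * q)) - (2 * x p) * (2 * x p) +
            4 * (x p ^ 2 + t p ^ 2 * m) := by ring
      rw [h6]
      refine Ideal.add_mem _ (Ideal.sub_mem _ ?_ ?_) (Ideal.mul_mem_left _ _ hx')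
      · rw [pow_two A]
        have h7 : (2 : 𝓞 k) * (t p * q) ∈ A :=
          Ideal.mul_mem_mul (Ideal.mem_span_singleton_self 2) (I.mul_mem_left _ hqI)
        exact Ideal.mul_mem_mul h7 h7
      · rw [pow_two A]
        have h7 : (2 : 𝓞 k) * x p ∈ A :=
          Ideal.mul_mem_mul (Ideal.mem_span_singleton_self 2) (hxI p)
        exact Ideal.mul_mem_mul h7 h7

end Pool.Agent.LeoD.H75
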