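import Pool.Agent.Helper75_LeoD.Lcg
import Pool.Agent.Helper60_Leo3.Tools
import Pool.Agent.Helper75_LeoK.Tools

/-! Squad LEOD, module OKS: the integers of `k(√D)`. -/

set_option autoImplicit false

open NumberField IsDedekindDomain Module Polynomial

namespace Pool.Agent.LeoD.H75

/-- `SqM I m` gives, at any prime `l ≠ p`, the local condition for `I p`. -/
lemma sqM_away {k : Type} [Field k] [NumberField k] {I : Ideal (𝓞 k)} {m : 𝓞 k}
    (h : SqM I m) (p l : HeightOneSpectrum (𝓞 k)) (hpl : l ≠ p) :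
    ∃ t : 𝓞 k, t ∉ l.asIdeal ∧ SqM (I * p.asIdeal) (t ^ 2 * m) := by
  obtain ⟨q, hq, hqm⟩ := h
  have h1 : ¬ p.asIdeal ≤ l.asIdeal := by
    intro hle
    have hmax : p.asIdeal.IsMaximal := p.isMaximal
    exact hpl (HeightOneSpectrum.ext (hmax.eq_of_le l.isPrime.ne_top hle).symm)
  obtain ⟨t, ht1, ht2⟩ := SetLike.not_le_iff_exists.1 h1
  refine ⟨t, ht2, q * t, Ideal.mul_mem_mul hq ht1, ?_⟩
  have h3 : (q * t) ^ 2 + t ^ 2 * m = (q ^ 2 + m) * t ^ 2 := by ring
  rw [h3, mul_pow, ← mul_assoc]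
  exact Ideal.mul_mem_mul hqm (Ideal.pow_mem_pow ht1 2)

/-- An element of `k` that multiplies a nonzero ideal into itself is an integer. -/
lemma int_of_mul {k : Type} [Field k] [NumberField k] {P : Ideal (𝓞 k)} (hP : P ≠ ⊥) (w : k)
    (h : ∀ i ∈ P, ∃ c ∈ P, w * algebraMap (𝓞 k) k i = algebraMap (𝓞 k) k c) :
    ∃ c : 𝓞 k, w = algebraMap (𝓞 k) k c := by
  set N : Submodule (𝓞 k) k := Submodule.map (Algebra.linearMap (𝓞 k) k) P with hN
  have hN0 : N ≠ ⊥ := by
    obtain ⟨x, hx, hx0⟩ := Submodule.exists_mem_ne_zero_of_ne_bot hP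
    intro h0
    have h1 : (x : k) ∈ N := ⟨x, hx, rfl⟩
    rw [h0, Submodule.mem_bot] at h1
    exact hx0 (by exact_mod_cast h1)
  have hfg : N.FG := Submodule.FG.map _ (IsNoetherian.noetherian P)
  have hint : IsIntegral (𝓞 k) w := by
    refine isIntegral_of_smul_mem_submodule N hN0 hfg w ?_
    rintro _ ⟨i, hi, rfl⟩
    obtain ⟨c, hc, hwc⟩ := h i hi
    exact ⟨c, hc, hwc.symm⟩
  obtain ⟨c, hc⟩ := IsIntegrallyClosed.isIntegral_iff.1 hint
  exact ⟨c, hc.symm⟩

/-- The key step. -/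
lemma key {k : Type} [Field k] [NumberField k] {I : Ideal (𝓞 k)} {m : 𝓞 k} (hI : I ≠ ⊥)
    (hF : Fund I m) {y : k} {T N : 𝓞 k}
    (hTN : algebraMap (𝓞 k) k T ^ 2 - 4 * algebraMap (𝓞 k) k N =
      - (y ^ 2 * algebraMap (𝓞 k) k m)) :
    ∀ i ∈ I, ∃ c : 𝓞 k, y * algebraMap (𝓞 k) k i = algebraMap (𝓞 k) k c := by
  by_cases hy : y = 0
  · intro i _
    exact ⟨0, by rw [hy, zero_mul, map_zero]⟩
  have hF1 : SqM I m := hF.sq
  -- the ideal of denominators
  obtain ⟨A, hAmem⟩ : ∃ A : Ideal (𝓞 k), ∀ g : 𝓞 k, g ∈ A ↔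
      ∃ c : 𝓞 k, y * algebraMap (𝓞 k) k g = algebraMap (𝓞 k) k c := by
    refine ⟨{ carrier := {g | ∃ c : 𝓞 k, y * algebraMap (𝓞 k) k g = algebraMap (𝓞 k) k c}
              add_mem' := ?_
              zero_mem' := ⟨0, by rw [map_zero, mul_zero]⟩
              smul_mem' := ?_ }, fun g => Iff.rfl⟩
    · rintro a b ⟨c, hc⟩ ⟨d, hd⟩
      exact ⟨c + d, by rw [map_add, map_add, mul_add, hc, hd]⟩
    · rintro a b ⟨c, hc⟩
      refine ⟨a * c, ?_⟩
      rw [smul_eq_mul, map_mul, map_mul, ← hc]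
      ring
  have hA0 : A ≠ ⊥ := by
    obtain ⟨n, d, hd, hnd⟩ := IsFractionRing.div_surjective (A := 𝓞 k) y
    have hd0 : d ≠ 0 := nonZeroDivisors.ne_zero hd
    intro h0
    have h1 : d ∈ A := by
      rw [hAmem]
      refine ⟨n, ?_⟩
      have hd1 : algebraMap (𝓞 k) k d ≠ 0 := by simpa using hd0
      rw [← hnd]
      field_simp
    rw [h0] at h1
    exact hd0 h1
  suffices hIA : I ≤ A from fun i hi => (hAmem i).1 (hIA hi)
  -- local principle
  by_contra hcon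
  have h1 : ∃ p : HeightOneSpectrum (𝓞 k), ∀ s : 𝓞 k, s ∉ p.asIdeal → ∃ i ∈ I, s * i ∉ A := by
    by_contra h2
    push Not at h2
    apply hcon
    intro i hi
    apply mem_of_local hA0
    intro p
    obtain ⟨s, hs1, hs2⟩ := h2 p
    exact ⟨s, hs1, hs2 i hi⟩
  obtain ⟨p, hp⟩ := h1
  obtain ⟨e, J, r, hIJ, hrJ, hrp⟩ := split_at p hI
  obtain ⟨f, G, s, hAG, hsG, hsp⟩ := split_at p hA0
  have hef : e < f := by
    by_contra hle
    push Not at hle
    obtain ⟨i, hi, hsi⟩ := hp s hsp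
    apply hsi
    rw [hIJ] at hi
    rw [hAG, mul_comm s i]
    exact Ideal.mul_mem_mul (Ideal.pow_le_pow_right hle (Ideal.mul_le_left hi)) hsG
  -- an element g of A with g y not in p
  have hg : ∃ g ∈ A, ∀ c : 𝓞 k, y * algebraMap (𝓞 k) k g = algebraMap (𝓞 k) k c →
      c ∉ p.asIdeal := by
    by_contra hno
    push Not at hno
    -- p^(f-1) G ≤ A
    have hle : p.asIdeal ^ (f - 1) * G ≤ A := by
      intro g hg
      rw [hAmem]
      refine int_of_mul p.ne_bot (y * algebraMap (𝓞 k) k g) ?_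
      intro i hi
      have h3 : i * g ∈ A := by
        rw [hAG]
        have h4 : p.asIdeal ^ f * G = p.asIdeal * (p.asIdeal ^ (f - 1) * G) := by
          rw [← mul_assoc, ← pow_succ']
          congr 2
          omega
        rw [h4]
        exact Ideal.mul_mem_mul hi hg
      obtain ⟨c, hc1, hc2⟩ := hno (i * g) h3
      refine ⟨c, hc2, ?_⟩
      rw [← hc1, map_mul]
      ring
    -- contradiction
    have h5 : p.asIdeal ^ (f - 1) * G ≤ p.asIdeal * (p.asIdeal ^ (f - 1) * G) := by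
      refine hle.trans (le_of_eq ?_)
      rw [hAG, ← mul_assoc, ← pow_succ']
      congr 2
      omega
    have h6 : p.asIdeal ^ (f - 1) * G ≠ ⊥ := by
      intro h0
      apply hA0
      rw [hAG]
      rcases Ideal.mul_eq_bot.1 h0 with h0 | h0
      · exact absurd h0 (pow_ne_zero _ p.ne_bot)
      · rw [h0, Ideal.mul_bot]
    have h7 : p.asIdeal * (p.asIdeal ^ (f - 1) * G) = 1 * (p.asIdeal ^ (f - 1) * G) := by
      rw [one_mul]
      exact le_antisymm Ideal.mul_le_right h5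
    have h8 : p.asIdeal = 1 := mul_right_cancel₀ h6 h7
    exact p.isPrime.ne_top (by rw [h8, Ideal.one_eq_top])
  obtain ⟨g, hgA, hgp⟩ := hg
  obtain ⟨c, hc⟩ := (hAmem g).1 hgA
  have hcp := hgp c hc
  have hgpI : g * r ∈ I * p.asIdeal := by
    have h3 : g ∈ p.asIdeal ^ (e + 1) := by
      rw [hAG] at hgA
      exact Ideal.pow_le_pow_right hef (Ideal.mul_le_left hgA)
    have h4 : I * p.asIdeal = p.asIdeal ^ (e + 1) * J := by
      rw [hIJ, pow_succ]
      ring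
    rw [h4]
    exact Ideal.mul_mem_mul h3 hrJ
  apply hF.loc p
  refine lcg k (I * p.asIdeal) m ?_ ?_
  · intro h0
    rcases Ideal.mul_eq_bot.1 h0 with h0 | h0
    · exact hI h0
    · exact p.ne_bot h0
  intro l
  by_cases hlp : l = p
  · subst hlp
    refine ⟨c * r, ?_, (g * r) * T, Ideal.mul_mem_right _ _ hgpI, ?_⟩
    · intro h
      rcases l.isPrime.mem_or_mem h with h | h
      · exact hcp h
      · exact hrp h
    · have h3 : ((g * r) * T) ^ 2 + (c * r) ^ 2 * m = 4 * ((N * (g * r)) * (g * r)) := by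
        apply FaithfulSMul.algebraMap_injective (𝓞 k) k
        simp only [map_add, map_mul, map_pow, map_ofNat]
        rw [← hc]
        linear_combination (algebraMap (𝓞 k) k g * algebraMap (𝓞 k) k r) ^ 2 * hTN
      rw [h3, pow_two (I * l.asIdeal)]
      exact Ideal.mul_mem_mul (Ideal.mem_span_singleton_self 4)
        (Ideal.mul_mem_mul (Ideal.mul_mem_left _ _ hgpI) hgpI)
  · exact sqM_away hF1 p l hlp

/-- Products: `y I ⊆ O` gives `y² I² ⊆ O`. -/
lemma sq_int {k : Type} [Field k] [NumberField k] {I : Ideal (𝓞 k)} {y : k}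
    (h : ∀ i ∈ I, ∃ c : 𝓞 k, y * algebraMap (𝓞 k) k i = algebraMap (𝓞 k) k c) {w : 𝓞 k}
    (hw : w ∈ I ^ 2) : ∃ c : 𝓞 k, y ^ 2 * algebraMap (𝓞 k) k w = algebraMap (𝓞 k) k c := by
  rw [pow_two] at hw
  induction hw using Submodule.mul_induction_on' with
  | mem_mul_mem a ha b hb =>
    obtain ⟨c, hc⟩ := h a ha
    obtain ⟨d, hd⟩ := h b hb
    refine ⟨c * d, ?_⟩
    rw [map_mul, map_mul, ← hc, ← hd]
    ring
  | add a _ b _ ha hb =>
    obtain ⟨c, hc⟩ := ha
    obtain ⟨d, hd⟩ := hb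
    exact ⟨c + d, by rw [map_add, map_add, mul_add, hc, hd]⟩

/-- The second half: `y θ` is an integer. -/
lemma int_ytheta {k K : Type} [Field k] [NumberField k] [Field K] [NumberField K] [Algebra k K]
    {I : Ideal (𝓞 k)} {D q : 𝓞 k} {s : K}
    (hs : s ^ 2 = algebraMap k K (algebraMap (𝓞 k) k D)) (hqI : q ∈ I)
    (hq : q ^ 2 + -D ∈ Ideal.span {(4 : 𝓞 k)} * I ^ 2) {y : k}
    (h : ∀ i ∈ I, ∃ c : 𝓞 k, y * algebraMap (𝓞 k) k i = algebraMap (𝓞 k) k c) :
    ∃ x : 𝓞 K, algebraMap (𝓞 K) K x =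
      algebraMap k K y * ((algebraMap k K (algebraMap (𝓞 k) k q) + s) / 2) := by
  obtain ⟨w, hw, hwq⟩ := Ideal.mem_span_singleton_mul.1 hq
  obtain ⟨c, hc⟩ := h q hqI
  obtain ⟨d, hd⟩ := sq_int h hw
  have hint : IsIntegral (𝓞 k)
      (algebraMap k K y * ((algebraMap k K (algebraMap (𝓞 k) k q) + s) / 2)) := by
    refine ⟨X ^ 2 - C c * X + C d, ?_, ?_⟩
    · monicity!
    · have hc' : algebraMap (𝓞 k) K c =
          algebraMap k K y * algebraMap k K (algebraMap (𝓞 k) k q) := by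
        rw [IsScalarTower.algebraMap_apply (𝓞 k) k K, ← hc, map_mul]
      have hd' : algebraMap (𝓞 k) K d =
          algebraMap k K y ^ 2 * algebraMap k K (algebraMap (𝓞 k) k w) := by
        rw [IsScalarTower.algebraMap_apply (𝓞 k) k K, ← hd, map_mul, map_pow]
      have hw' : 4 * algebraMap k K (algebraMap (𝓞 k) k w) =
          algebraMap k K (algebraMap (𝓞 k) k q) ^ 2 -
            algebraMap k K (algebraMap (𝓞 k) k D) := by
        have h5 : algebraMap k K (algebraMap (𝓞 k) k (4 * w)) =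
            algebraMap k K (algebraMap (𝓞 k) k (q ^ 2 + -D)) := by rw [hwq]
        simp only [map_add, map_mul, map_pow, map_ofNat, map_neg] at h5
        rw [h5]; ring
      rw [eval₂_add, eval₂_sub, eval₂_mul, eval₂_pow, eval₂_X, eval₂_C, eval₂_C, hc', hd']
      linear_combination (algebraMap k K y ^ 2 / 4) * hs + (algebraMap k K y ^ 2 / 4) * hw'
  have hintZ : IsIntegral ℤ
      (algebraMap k K y * ((algebraMap k K (algebraMap (𝓞 k) k q) + s) / 2)) :=
    isIntegral_trans (R := ℤ) (A := 𝓞 k) _ hint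
  exact ⟨⟨_, hintZ⟩, rfl⟩

/-- OKS -/
theorem oks : OksStmt := by
  intro k K _ _ _ _ _ I D q s hK hs hnsq hF hqI hq
  have h2K : (2 : K) ≠ 0 := two_ne_zero
  have hpart2 : ∀ y : k, (∀ i ∈ I, ∃ c : 𝓞 k, y * algebraMap (𝓞 k) k i = algebraMap (𝓞 k) k c) →
      ∃ x : 𝓞 K, algebraMap (𝓞 K) K x =
        algebraMap k K y * ((algebraMap k K (algebraMap (𝓞 k) k q) + s) / 2) :=
    fun y hy => int_ytheta hs hqI hq hy
  refine ⟨?_, hpart2⟩
  intro x
  have hsk : ∀ z : k, algebraMap k K z ≠ s := by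
    intro z hz
    apply hnsq z
    apply (algebraMap k K).injective
    rw [map_pow, hz, hs]
  have hfd : FiniteDimensional k K := Module.finite_of_finrank_pos (by omega)
  have hquad : Algebra.IsQuadraticExtension k K := ⟨hK⟩
  obtain ⟨τ, hτ⟩ := Pool.Agent.Leo3.H60.exists_conj (K := k) (L := K) s (D : k) hs hsk
  obtain ⟨a₀, b₀, hab⟩ := Pool.Agent.LeoK.H75.quad_span hK hsk (x : K)
  -- `I ≠ ⊥`
  have hI : I ≠ ⊥ := by
    intro h0
    rw [h0, Ideal.mem_bot] at hqI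
    rw [h0, hqI] at hq
    have h3 : (⊥ : Ideal (𝓞 k)) ^ 2 = ⊥ := by
      rw [pow_two, Ideal.bot_mul]
    rw [h3, Ideal.mul_bot, Ideal.mem_bot] at hq
    have hD : D = 0 := by
      have h4 : -D = 0 := by linear_combination hq
      exact neg_eq_zero.1 h4
    apply hnsq 0
    rw [hD]
    simp
  -- coordinates
  obtain ⟨y, hy⟩ : ∃ y : k, y = 2 * b₀ := ⟨_, rfl⟩
  obtain ⟨a, ha⟩ : ∃ a : k, a = a₀ - b₀ * algebraMap (𝓞 k) k q := ⟨_, rfl⟩
  have hx : algebraMap (𝓞 K) K x = algebraMap k K a +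
      algebraMap k K y * ((algebraMap k K (algebraMap (𝓞 k) k q) + s) / 2) := by
    change (x : K) = _
    rw [hab, ha, hy, map_sub, map_mul, map_mul, map_ofNat]
    ring
  have hτx : τ (algebraMap (𝓞 K) K x) = algebraMap k K a +
      algebraMap k K y * ((algebraMap k K (algebraMap (𝓞 k) k q) - s) / 2) := by
    rw [hx, map_add, map_mul, map_div₀, map_add, hτ, τ.commutes, τ.commutes, τ.commutes, map_ofNat]
    ring
  have hintx : IsIntegral ℤ (algebraMap (𝓞 K) K x) := x.isIntegral_coe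
  have hintτ : IsIntegral ℤ (τ (algebraMap (𝓞 K) K x)) :=
    hintx.map (τ.toAlgHom.restrictScalars ℤ)
  -- trace and norm
  have hdesc : ∀ z : k, IsIntegral ℤ (algebraMap k K z) → ∃ c : 𝓞 k, algebraMap (𝓞 k) k c = z := by
    intro z hz
    have h5 : IsIntegral ℤ z :=
      (isIntegral_algebraMap_iff (FaithfulSMul.algebraMap_injective k K)).1 hz
    exact ⟨⟨z, h5⟩, rfl⟩
  obtain ⟨T, hT⟩ := hdesc (2 * a + y * algebraMap (𝓞 k) k q) (by
    have h6 : algebraMap k K (2 * a + y * algebraMap (𝓞 k) k q) =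
        algebraMap (𝓞 K) K x + τ (algebraMap (𝓞 K) K x) := by
      rw [hτx, hx, map_add, map_mul, map_mul, map_ofNat]
      ring
    rw [h6]
    exact hintx.add hintτ)
  obtain ⟨N, hN⟩ := hdesc (a ^ 2 + a * y * algebraMap (𝓞 k) k q +
      y ^ 2 * (algebraMap (𝓞 k) k q ^ 2 - algebraMap (𝓞 k) k D) / 4) (by
    have h6 : algebraMap k K (a ^ 2 + a * y * algebraMap (𝓞 k) k q +
      y ^ 2 * (algebraMap (𝓞 k) k q ^ 2 - algebraMap (𝓞 k) k D) / 4) =
        algebraMap (𝓞 K) K x * τ (algebraMap (𝓞 K) K x) := by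
      rw [hτx, hx]
      simp only [map_add, map_mul, map_div₀, map_sub, map_pow, map_ofNat]
      linear_combination ((algebraMap k K y) ^ 2 / 4) * hs
    rw [h6]
    exact hintx.mul hintτ)
  have hyI : ∀ i ∈ I, ∃ c : 𝓞 k, y * algebraMap (𝓞 k) k i = algebraMap (𝓞 k) k c := by
    refine key hI hF (y := y) (T := T) (N := N) ?_
    rw [hT, hN, map_neg]
    ring
  obtain ⟨x', hx'⟩ := hpart2 y hyI
  obtain ⟨c, hc⟩ := hdesc a (by
    have h6 : algebraMap k K a = algebraMap (𝓞 K) K x - algebraMap (𝓞 K) K x' := by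
      rw [hx, hx']; ring
    rw [h6]
    exact hintx.sub x'.isIntegral_coe)
  refine ⟨c, y, hyI, ?_⟩
  change algebraMap (𝓞 K) K x = algebraMap k K (algebraMap (𝓞 k) k c) + _
  rw [hc, hx]

end Pool.Agent.LeoD.H75
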